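import Pool.Agent.Lib.SHirsch.FMain

/-! The smoothed Hirsch problem: the expected diameter of `{x | A x ≤ b}` over the feasible event is
quasi-polynomial in `n`, `log m` and `1/σ` for all centres, hence at most linear in `m` when `m` is
at least quasi-polynomial in `n` and `1/σ`. -/

set_option autoImplicit false

open MeasureTheory ProbabilityTheory

namespace Pool.Agent.Results.MP_4a5c02_co.QuasiPolynomial

/-- There is `C` such that for all `m, n, σ > 0` and all `Abar, bbar` of norm at most one: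
(1) `E [diam; feasible] ≤ (C (1 + n + log (1+m) + 1/σ)) ^ (C (1 + ⌊log₂ (1+n)⌋)) * P (feasible)`;
(2) if `(1 + n + 1/σ) ^ (C (1 + ⌊log₂ (1+n)⌋)) ≤ m` then
`E [diam; feasible] ≤ C * m * P (feasible)`. -/
theorem result : ∃ C : ℕ,
    (∀ m n : ℕ, ∀ σ : ℝ, 0 < σ → ∀ Abar : Fin m → Fin n → ℝ, ∀ bbar : Fin m → ℝ,
      ∑ i, ∑ j, Abar i j ^ 2 ≤ 1 → ∑ i, bbar i ^ 2 ≤ 1 →
      ∫⁻ ω : (Fin m → Fin n → ℝ) × (Fin m → ℝ),
          ENat.toENNReal
            (((SimpleGraph.fromRel (fun u v : Fin n → ℝ =>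
                IsExtreme ℝ
                  {x : Fin n → ℝ | ∀ i, ∑ j, (Abar i j + ω.1 i j) * x j ≤ bbar i + ω.2 i}
                  (segment ℝ u v))).induce
              (Set.extremePoints ℝ
                {x : Fin n → ℝ | ∀ i, ∑ j, (Abar i j + ω.1 i j) * x j ≤ bbar i + ω.2 i})).ediam)
        ∂((Measure.pi fun _ : Fin m => Measure.pi fun _ : Fin n =>
              gaussianReal 0 (σ ^ 2).toNNReal).prod
            (Measure.pi fun _ : Fin m => gaussianReal 0 (σ ^ 2).toNNReal))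
      ≤ ENNReal.ofReal (((C : ℝ) * (1 + n + Real.log (1 + m) + 1 / σ)) ^
            (C * (1 + Nat.log 2 (1 + n)))) *
        ((Measure.pi fun _ : Fin m => Measure.pi fun _ : Fin n =>
              gaussianReal 0 (σ ^ 2).toNNReal).prod
            (Measure.pi fun _ : Fin m => gaussianReal 0 (σ ^ 2).toNNReal))
          {ω : (Fin m → Fin n → ℝ) × (Fin m → ℝ) |
            ∃ x : Fin n → ℝ, ∀ i, ∑ j, (Abar i j + ω.1 i j) * x j ≤ bbar i + ω.2 i}) ∧
    (∀ m n : ℕ, ∀ σ : ℝ, 0 < σ →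
      (1 + (n : ℝ) + 1 / σ) ^ (C * (1 + Nat.log 2 (1 + n))) ≤ m →
      ∀ Abar : Fin m → Fin n → ℝ, ∀ bbar : Fin m → ℝ,
      ∑ i, ∑ j, Abar i j ^ 2 ≤ 1 → ∑ i, bbar i ^ 2 ≤ 1 →
      ∫⁻ ω : (Fin m → Fin n → ℝ) × (Fin m → ℝ),
          ENat.toENNReal
            (((SimpleGraph.fromRel (fun u v : Fin n → ℝ =>
                IsExtreme ℝ
                  {x : Fin n → ℝ | ∀ i, ∑ j, (Abar i j + ω.1 i j) * x j ≤ bbar i + ω.2 i}
                  (segment ℝ u v))).induce
              (Set.extremePoints ℝ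
                {x : Fin n → ℝ | ∀ i, ∑ j, (Abar i j + ω.1 i j) * x j ≤ bbar i + ω.2 i})).ediam)
        ∂((Measure.pi fun _ : Fin m => Measure.pi fun _ : Fin n =>
              gaussianReal 0 (σ ^ 2).toNNReal).prod
            (Measure.pi fun _ : Fin m => gaussianReal 0 (σ ^ 2).toNNReal))
      ≤ ENNReal.ofReal (C * (m : ℝ)) *
        ((Measure.pi fun _ : Fin m => Measure.pi fun _ : Fin n =>
              gaussianReal 0 (σ ^ 2).toNNReal).prod
            (Measure.pi fun _ : Fin m => gaussianReal 0 (σ ^ 2).toNNReal))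
          {ω : (Fin m → Fin n → ℝ) × (Fin m → ℝ) |
            ∃ x : Fin n → ℝ, ∀ i, ∑ j, (Abar i j + ω.1 i j) * x j ≤ bbar i + ω.2 i}) :=
  Pool.Agent.Lib.SHirsch.main_result

end Pool.Agent.Results.MP_4a5c02_co.QuasiPolynomial
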